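import Pool.Agent.GT.StmtsE

/-!
# Squad GT, row E_PLR: the roots are polynomials
-/

set_option autoImplicit false

namespace Pool.Agent.GT.OF.H84

open Polynomial Pool.Agent.NJ Pool.Agent.GT.D Pool.Agent.GT.OF

/-- the discriminant -/
theorem disc {W : WeierstrassCurve ℚ} {a b c : ℚ} (h : Roots W a b c) :
    W.Δ = 16 * ((a - b) * (b - c) * (c - a)) ^ 2 := by
  obtain ⟨h2, h4, h6⟩ := h
  have h1 : 4 * W.Δ = -W.b₂ ^ 2 * (4 * W.b₈) - 32 * W.b₄ ^ 3 - 108 * W.b₆ ^ 2 +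
      36 * W.b₂ * W.b₄ * W.b₆ := by
    rw [WeierstrassCurve.Δ]
    ring
  have h3 : 4 * W.Δ = 4 * (16 * ((a - b) * (b - c) * (c - a)) ^ 2) := by
    rw [h1, W.b_relation, h2, h4, h6]
    ring
  linarith

/-- the roots are polynomials -/
theorem pol (E : WeierstrassCurve ℚ[X]) {e : RatFunc ℚ}
    (he : (4 * e) ^ 3 + algebraMap ℚ[X] (RatFunc ℚ) E.b₂ * (4 * e) ^ 2 +
      8 * algebraMap ℚ[X] (RatFunc ℚ) E.b₄ * (4 * e) +
      16 * algebraMap ℚ[X] (RatFunc ℚ) E.b₆ = 0) :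
    ∃ f : ℚ[X], algebraMap ℚ[X] (RatFunc ℚ) f = e := by
  have hint : IsIntegral ℚ[X] (4 * e) := by
    refine ⟨X ^ 3 + (C E.b₂ * X ^ 2 + C (8 * E.b₄) * X + C (16 * E.b₆)), ?_, ?_⟩
    · apply Polynomial.monic_X_pow_add
      refine lt_of_le_of_lt (b := (2 : WithBot ℕ)) ?_ (by norm_num)
      compute_degree
    · have k4 : algebraMap ℚ[X] (RatFunc ℚ) (8 * E.b₄) = 8 * algebraMap ℚ[X] (RatFunc ℚ) E.b₄ := by
        rw [map_mul, map_ofNat]
      have k6 : algebraMap ℚ[X] (RatFunc ℚ) (16 * E.b₆) = 16 * algebraMap ℚ[X] (RatFunc ℚ) E.b₆ := by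
        rw [map_mul, map_ofNat]
      rw [eval₂_add, eval₂_add, eval₂_add, eval₂_mul, eval₂_mul, eval₂_pow, eval₂_pow, eval₂_X, eval₂_C,
        eval₂_C, eval₂_C, k4, k6]
      linear_combination he
  obtain ⟨g, hg⟩ := IsIntegrallyClosed.isIntegral_iff.1 hint
  refine ⟨C (1 / 4) * g, ?_⟩
  have h1 : (4 : ℚ[X]) * (C (1 / 4) * g) = g := by
    have : (4 : ℚ[X]) = C 4 := rfl
    rw [this, ← mul_assoc, ← C_mul]
    norm_num
  have h2 : (4 : RatFunc ℚ) * algebraMap ℚ[X] (RatFunc ℚ) (C (1 / 4) * g) = 4 * e := by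
    rw [← hg]
    conv_rhs => rw [← h1]
    rw [map_mul (algebraMap ℚ[X] (RatFunc ℚ)) 4, map_ofNat]
  have h4 : (4 : RatFunc ℚ) ≠ 0 := by
    have h5 : algebraMap ℚ[X] (RatFunc ℚ) 4 = 4 := map_ofNat _ 4
    rw [← h5]
    intro h6
    have h7 : (4 : ℚ[X]) = 0 := by
      apply IsFractionRing.injective ℚ[X] (RatFunc ℚ)
      rw [h6, map_zero]
    have h8 : (C 4 : ℚ[X]) = 0 := h7
    rw [C_eq_zero] at h8
    norm_num at h8
  exact mul_left_cancel₀ h4 h2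

/-- E_PLR -/
theorem e_plr (hTOR : TORStmt) : PlrStmt := by
  intro E hE hF
  have hinj : Function.Injective (algebraMap ℚ[X] (RatFunc ℚ)) :=
    IsFractionRing.injective ℚ[X] (RatFunc ℚ)
  have hΔ : (gen E).Δ ≠ 0 := by
    unfold gen
    rw [WeierstrassCurve.map_Δ]
    intro h0
    exact hE (hinj (by rw [h0, map_zero]))
  obtain ⟨e₁, e₂, e₃, ⟨h2, h4, h6⟩, n12, n23, n31⟩ := hTOR (gen E) hΔ hF
  have hb2 : (gen E).b₂ = algebraMap ℚ[X] (RatFunc ℚ) E.b₂ := WeierstrassCurve.map_b₂ _ _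
  have hb4 : (gen E).b₄ = algebraMap ℚ[X] (RatFunc ℚ) E.b₄ := WeierstrassCurve.map_b₄ _ _
  have hb6 : (gen E).b₆ = algebraMap ℚ[X] (RatFunc ℚ) E.b₆ := WeierstrassCurve.map_b₆ _ _
  rw [hb2] at h2
  rw [hb4] at h4
  rw [hb6] at h6
  obtain ⟨f₁, hf1⟩ := pol E (e := e₁) (by rw [h2, h4, h6]; ring)
  obtain ⟨f₂, hf2⟩ := pol E (e := e₂) (by rw [h2, h4, h6]; ring)
  obtain ⟨f₃, hf3⟩ := pol E (e := e₃) (by rw [h2, h4, h6]; ring)
  have p2 : E.b₂ = -4 * (f₁ + f₂ + f₃) := by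
    apply hinj
    rw [h2, ← hf1, ← hf2, ← hf3]
    simp only [map_mul, map_add, map_neg, map_ofNat]
  have p4 : E.b₄ = 2 * (f₁ * f₂ + f₁ * f₃ + f₂ * f₃) := by
    apply hinj
    rw [h4, ← hf1, ← hf2, ← hf3]
    simp only [map_mul, map_add, map_ofNat]
  have p6 : E.b₆ = -4 * (f₁ * f₂ * f₃) := by
    apply hinj
    rw [h6, ← hf1, ← hf2, ← hf3]
    simp only [map_mul, map_neg, map_ofNat]
  have hR : ∀ t : ℚ, Roots (fib E t) (f₁.eval t) (f₂.eval t) (f₃.eval t) := by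
    intro t
    have q2 : (fib E t).b₂ = E.b₂.eval t := WeierstrassCurve.map_b₂ _ _
    have q4 : (fib E t).b₄ = E.b₄.eval t := WeierstrassCurve.map_b₄ _ _
    have q6 : (fib E t).b₆ = E.b₆.eval t := WeierstrassCurve.map_b₆ _ _
    refine ⟨?_, ?_, ?_⟩
    · rw [q2, p2]; simp
    · rw [q4, p4]; simp
    · rw [q6, p6]; simp
  refine ⟨![f₁, f₂, f₃], ?_, ?_, hR, ?_⟩
  · change Roots (gen E) (algebraMap ℚ[X] (RatFunc ℚ) f₁) (algebraMap ℚ[X] (RatFunc ℚ) f₂)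
      (algebraMap ℚ[X] (RatFunc ℚ) f₃)
    rw [hf1, hf2, hf3]
    exact ⟨hb2.trans h2, hb4.trans h4, hb6.trans h6⟩
  · have m12 : f₁ ≠ f₂ := fun h => n12 (by rw [← hf1, ← hf2, h])
    have m23 : f₂ ≠ f₃ := fun h => n23 (by rw [← hf2, ← hf3, h])
    have m31 : f₃ ≠ f₁ := fun h => n31 (by rw [← hf3, ← hf1, h])
    intro i j hij
    fin_cases i <;> fin_cases j
    · exact absurd rfl hij
    · exact m12
    · exact m31.symm
    · exact m12.symm
    · exact absurd rfl hij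
    · exact m23
    · exact m31
    · exact m23.symm
    · exact absurd rfl hij
  · intro t ht
    have hd := disc (hR t)
    rw [hd] at ht
    have m12 : f₁.eval t ≠ f₂.eval t := fun h => ht (by rw [h]; ring)
    have m23 : f₂.eval t ≠ f₃.eval t := fun h => ht (by rw [h]; ring)
    have m31 : f₃.eval t ≠ f₁.eval t := fun h => ht (by rw [h]; ring)
    intro i j hij
    fin_cases i <;> fin_cases j
    · exact absurd rfl hij
    · exact m12
    · exact m31.symm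
    · exact m12.symm
    · exact absurd rfl hij
    · exact m23
    · exact m31
    · exact m23.symm
    · exact absurd rfl hij

end Pool.Agent.GT.OF.H84
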