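import Pool.Agent.GT.StmtsD

/-!
# Squad GT, row D_NWP: the new part of the class vanishes
-/

set_option autoImplicit false

namespace Pool.Agent.GT.D.H84

open Pool.Agent.GT.D

section

variable {ι : Type} [Fintype ι] [DecidableEq ι] {a : Fin 3 → ℤ} {s : ℤ} {r : ℕ} {bl : ι → Fin 3}
  {m st : ι → ℕ} {p : ι → ℕ} {h : ZMod 2}

theorem not_dvd_s {q : ℕ} (hq : q.Prime) (hs : s = 1 ∨ s = -1) : ¬ (q : ℤ) ∣ s := by
  intro hd
  have h1 : (q : ℤ) ∣ 1 := by
    rcases hs with rfl | rfl
    · exact hd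
    · exact (Int.dvd_neg).1 hd
  have h2 : q ∣ 1 := by exact_mod_cast h1
  exact hq.one_lt.ne' (Nat.dvd_one.1 h2)

theorem not_dvd_prime {q q' : ℕ} (hq : q.Prime) (hq' : q'.Prime) (hne : q ≠ q') :
    ¬ (q : ℤ) ∣ (q' : ℤ) := by
  intro hd
  have h2 : q ∣ q' := by exact_mod_cast hd
  exact hne ((Nat.prime_dvd_prime_iff_eq hq hq').1 h2)

theorem not_dvd_two {q : ℕ} (hq : q.Prime) (h2 : q ≠ 2) : ¬ (q : ℤ) ∣ 2 :=
  not_dvd_prime hq Nat.prime_two h2

theorem p2 (hP : Pk a s r bl m st p h) (l : ι) : p l ≠ 2 := by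
  intro h0
  have := hP.new.m8 l
  omega

theorem fact_p (hP : Pk a s r bl m st p h) (l : ι) (t : Fin 3) :
    ∃ R : ℤ, ¬ (p l : ℤ) ∣ R ∧ Kn s r st p * Bn a bl m p t =
      (p l : ℤ) ^ (st l + if bl l = t then m l else 0) * R := by
  have hp : Prime (p l : ℤ) := Nat.prime_iff_prime_int.1 (hP.new.pr l)
  refine ⟨2 * s * r * (∏ l' ∈ Finset.univ.erase l, (p l' : ℤ) ^ st l') *
    (a t * ∏ l' ∈ Finset.univ.erase l, if bl l' = t then (p l' : ℤ) ^ m l' else 1), ?_, ?_⟩
  · intro hd
    rcases hp.dvd_or_dvd hd with hd | hd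
    · rcases hp.dvd_or_dvd hd with hd | hd
      · rcases hp.dvd_or_dvd hd with hd | hd
        · rcases hp.dvd_or_dvd hd with hd | hd
          · exact not_dvd_two (hP.new.pr l) (p2 hP l) hd
          · exact not_dvd_s (hP.new.pr l) hP.cho.ss hd
        · exact not_dvd_prime (hP.new.pr l) hP.cho.pr (hP.new.nr l) hd
      · rw [hp.dvd_finsetProd_iff] at hd
        obtain ⟨l', hl', hd⟩ := hd
        exact not_dvd_prime (hP.new.pr l) (hP.new.pr l')
          (fun h0 => (Finset.ne_of_mem_erase hl') (hP.new.inj h0).symm) (hp.dvd_of_dvd_pow hd)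
    · rcases hp.dvd_or_dvd hd with hd | hd
      · exact hP.new.nd l t hd
      · rw [hp.dvd_finsetProd_iff] at hd
        obtain ⟨l', hl', hd⟩ := hd
        split_ifs at hd
        · exact not_dvd_prime (hP.new.pr l) (hP.new.pr l')
            (fun h0 => (Finset.ne_of_mem_erase hl') (hP.new.inj h0).symm) (hp.dvd_of_dvd_pow hd)
        · exact hp.not_dvd_one hd
  · unfold Kn Bn
    rw [← Finset.mul_prod_erase Finset.univ (fun l' => (p l' : ℤ) ^ st l') (Finset.mem_univ l),
      ← Finset.mul_prod_erase Finset.univ (fun l' => if bl l' = t then (p l' : ℤ) ^ m l' else 1)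
        (Finset.mem_univ l), pow_add]
    split_ifs
    · ring
    · ring

theorem fact_r (hP : Pk a s r bl m st p h) (t : Fin 3) :
    ∃ R : ℤ, ¬ (r : ℤ) ∣ R ∧ Kn s r st p * Bn a bl m p t = r * R := by
  have hp : Prime (r : ℤ) := Nat.prime_iff_prime_int.1 hP.cho.pr
  refine ⟨2 * s * (∏ l', (p l' : ℤ) ^ st l') *
    (a t * ∏ l', if bl l' = t then (p l' : ℤ) ^ m l' else 1), ?_, ?_⟩
  · intro hd
    rcases hp.dvd_or_dvd hd with hd | hd
    · rcases hp.dvd_or_dvd hd with hd | hd
      · rcases hp.dvd_or_dvd hd with hd | hd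
        · exact not_dvd_two hP.cho.pr hP.cho.r2 hd
        · exact not_dvd_s hP.cho.pr hP.cho.ss hd
      · rw [hp.dvd_finsetProd_iff] at hd
        obtain ⟨l', hl', hd⟩ := hd
        exact not_dvd_prime hP.cho.pr (hP.new.pr l') (hP.new.nr l').symm (hp.dvd_of_dvd_pow hd)
    · rcases hp.dvd_or_dvd hd with hd | hd
      · exact hP.cho.nd t hd
      · rw [hp.dvd_finsetProd_iff] at hd
        obtain ⟨l', hl', hd⟩ := hd
        split_ifs at hd
        · exact not_dvd_prime hP.cho.pr (hP.new.pr l') (hP.new.nr l').symm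
            (hp.dvd_of_dvd_pow hd)
        · exact hp.not_dvd_one hd
  · unfold Kn Bn
    ring

theorem ne_sq {q : ℕ} (hq : q.Prime) {n R : ℤ} (hR : ¬ (q : ℤ) ∣ R) (hn : n = q * R) :
    ¬ (q : ℤ) ^ 2 ∣ n := by
  intro hd
  apply hR
  rw [hn, sq] at hd
  exact (mul_dvd_mul_iff_left (by exact_mod_cast hq.ne_zero)).1 hd

theorem vl_neg (q : ℕ) (n : ℤ) : vl q (-n) = vl q n := by
  unfold vl padicValInt
  rw [Int.natAbs_neg]

/-- the difference of two roots -/
theorem dif (K : ℤ) (B : Fin 3 → ℤ) (hB : B 0 + B 1 + B 2 = 0) (j k : Fin 3) (hjk : j ≠ k) :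
    ∃ t, t ≠ j ∧ t ≠ k ∧ (rt K B j - rt K B k = K * B t ∨ rt K B j - rt K B k = -(K * B t)) := by
  have hk : k = j + 1 ∨ k = j + 2 := by
    revert j k
    decide
  rcases hk with rfl | rfl
  · refine ⟨j + 2, ?_, ?_, Or.inl ?_⟩
    · revert j; decide
    · revert j; decide
    · have := (rt_sub (K := K) hB j).1
      linear_combination -this
  · refine ⟨j + 1, ?_, ?_, Or.inr ?_⟩
    · revert j; decide
    · revert j; decide
    · have := (rt_sub (K := K) hB j).2.1
      linear_combination -this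

theorem pick : ∀ j b : Fin 3, ∃ k : Fin 3, k ≠ j ∧ ∀ t : Fin 3, t ≠ j → t ≠ k → t ≠ b := by
  decide

theorem z2 : ∀ x : ZMod 2, x = 0 ∨ x = 1 := by decide

end

theorem d_nwp (ι : Type) [Fintype ι] [DecidableEq ι] (hSYP : SypStmt ι) (hSTR : StrStmt)
    (hMLO : MloStmt) (hMLE : MleStmt) (hGOO : GooStmt) (hDFF : DffStmt ι) (hADD : AddStmt)
    (hVAL : ValStmt) : NwpStmt ι := by
  intro a s r bl m st p h hP x w hT hr l
  obtain ⟨-, -, -, hS⟩ := hSYP a s r bl m st p h hP x w hT hr
  obtain ⟨hD1, -, hD3, -⟩ := hDFF a s r bl m st p h hP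
  obtain ⟨hA1, hA2, -, -, -⟩ := hADD
  obtain ⟨hV1, hV2, -, hV4, -⟩ := hVAL
  have hrp := hP.cho.pr
  have hpp := hP.new.pr
  have hB := hP.new.sum
  have hne : ∀ t, Kn s r st p * Bn a bl m p t ≠ 0 := fun t => (hD3 t).2.2.1
  have hdif : ∀ j k, j ≠ k → ∃ t, t ≠ j ∧ t ≠ k ∧
      (re a s r bl m st p j - re a s r bl m st p k = Kn s r st p * Bn a bl m p t ∨
        re a s r bl m st p j - re a s r bl m st p k = -(Kn s r st p * Bn a bl m p t)) :=
    fun j k hjk => dif _ _ hB j k hjk
  have hsub : ∀ i, re a s r bl m st p (i + 1) - re a s r bl m st p i =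
      -(Kn s r st p * Bn a bl m p (i + 2)) ∧
      re a s r bl m st p (i + 2) - re a s r bl m st p i = Kn s r st p * Bn a bl m p (i + 1) ∧
      re a s r bl m st p (i + 1) - re a s r bl m st p (i + 2) = Kn s r st p * Bn a bl m p i :=
    fun i => rt_sub hB i
  -- (1) the prime `r`
  have h1 : ∀ i, ∑ l, vl (p l) (Xc (re a s r bl m st p) x w i) = 0 := by
    intro i
    have hdr : ∀ t, (r : ℤ) ∣ Kn s r st p * Bn a bl m p t := fun t => by
      obtain ⟨R, -, hR⟩ := fact_r hP t
      exact ⟨R, hR⟩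
    have hall : ∀ j k, (r : ℤ) ∣ re a s r bl m st p j - re a s r bl m st p k := by
      intro j k
      by_cases hjk : j = k
      · rw [hjk, sub_self]
        exact dvd_zero _
      · obtain ⟨t, -, -, ht | ht⟩ := hdif j k hjk
        · rw [ht]; exact hdr t
        · rw [ht]; exact (dvd_neg).2 (hdr t)
    have hv1 : ∀ t, vl r (Kn s r st p * Bn a bl m p t) = 1 := by
      intro t
      obtain ⟨R, hR, hR'⟩ := fact_r hP t
      have hR0 : R ≠ 0 := fun h0 => hR (h0 ▸ dvd_zero _)
      rw [hR', (hA1 r hrp).mul _ _ (by exact_mod_cast hrp.ne_zero) hR0, (hV2 r hrp).1,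
        (hV1 r R hrp hR).1, add_zero]
    have hsq : ∀ t, ¬ (r : ℤ) ^ 2 ∣ Kn s r st p * Bn a bl m p t := by
      intro t
      obtain ⟨R, hR, hR'⟩ := fact_r hP t
      exact ne_sq hrp hR hR'
    have hul : ul r (Xc (re a s r bl m st p) x w i) = 0 := by
      rcases hSTR (re a s r bl m st p) x w r 0 hT hrp hP.cho.r2 hall
        (by rw [(hsub 0).1]; intro hd; exact hsq _ ((dvd_neg).1 hd))
        (by rw [(hsub 0).2.1]; exact hsq _)
        (by
          intro h0
          apply hne 0
          rw [← (hsub 0).2.2, h0, sub_self]) with hh | ⟨j, hj⟩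
      · exact (hh i).2
      · exfalso
        obtain ⟨k, hkj, -⟩ := pick j j
        have h2 := (hj k hkj).1
        obtain ⟨t, -, -, ht⟩ := hdif j k hkj.symm
        have h3 : vl r (re a s r bl m st p j - re a s r bl m st p k) = 1 := by
          rcases ht with ht | ht
          · rw [ht, hv1]
          · rw [ht, vl_neg, hv1]
        rw [h3, hr] at h2
        exact zero_ne_one h2
    have h2 := hS (ul r) (hA2 r hrp hP.cho.r2) i
    rw [hul] at h2
    rw [h2]
    refine Finset.sum_congr rfl fun l' _ => ?_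
    rw [hP.new.ur l', mul_one]
  -- (2) the symbols at `p l`
  have h2 : ∀ i, ul (p l) (Xc (re a s r bl m st p) x w i) =
      h * vl (p l) (Xc (re a s r bl m st p) x w i) := by
    intro i
    rw [hS (ul (p l)) (hA2 (p l) (hpp l) (p2 hP l)) i]
    have h3 := h1 i
    rw [← Finset.add_sum_erase Finset.univ _ (Finset.mem_univ l)] at h3 ⊢
    rw [hV4 (p l) (hpp l) (p2 hP l), mul_zero, zero_add]
    have h4 : ∑ l' ∈ Finset.univ.erase l, vl (p l') (Xc (re a s r bl m st p) x w i) *
        ul (p l) (p l') = h * ∑ l' ∈ Finset.univ.erase l,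
          vl (p l') (Xc (re a s r bl m st p) x w i) := by
      rw [Finset.mul_sum]
      refine Finset.sum_congr rfl fun l' hl' => ?_
      rw [hP.new.mu l l' (Finset.ne_of_mem_erase hl').symm, mul_comm]
    rw [h4]
    congr 1
    have h5 : ∀ u v : ZMod 2, u + v = 0 → v = u := by decide
    exact h5 _ _ h3
  have hst := hP.new.st1 l
  have huln : ∀ n : ℤ, n ≠ 0 → ul (p l) (-n) = ul (p l) n := by
    intro n hn
    have := (hA2 (p l) (hpp l) (p2 hP l)).mul (-1) n (by decide) hn
    rw [hP.new.um l, zero_add, neg_one_mul] at this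
    exact this
  have hn1 : bl l ≠ bl l + 1 := by
    generalize bl l = b
    revert b
    decide
  have hn2 : bl l ≠ bl l + 2 := by
    generalize bl l = b
    revert b
    decide
  rcases Nat.lt_or_ge (st l) 1 with hs0 | hs1
  · -- `st l = 0`
    have hs0 : st l = 0 := by omega
    have hnd : ∀ t, t ≠ bl l → ¬ (p l : ℤ) ∣ Kn s r st p * Bn a bl m p t := by
      intro t ht
      obtain ⟨R, hR, hR'⟩ := fact_p hP l t
      rw [hs0, if_neg (Ne.symm ht), add_zero, pow_zero, one_mul] at hR'
      rw [hR']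
      exact hR
    have hnd1 : ¬ (p l : ℤ) ∣ re a s r bl m st p (bl l + 1) - re a s r bl m st p (bl l) := by
      rw [(hsub (bl l)).1]
      intro hd
      exact hnd _ hn2.symm ((dvd_neg).1 hd)
    have hnd2 : ¬ (p l : ℤ) ∣ re a s r bl m st p (bl l + 2) - re a s r bl m st p (bl l) := by
      rw [(hsub (bl l)).2.1]
      exact hnd _ hn1.symm
    have hul1 : ul (p l) (re a s r bl m st p (bl l + 1) - re a s r bl m st p (bl l)) = 1 := by
      rw [(hsub (bl l)).1, huln _ (hne _), (hD1 l (bl l + 2)).2, if_neg hn2, hs0]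
      simp
    have hvb : vl (p l) (re a s r bl m st p (bl l + 1) - re a s r bl m st p (bl l + 2)) =
        (m l : ZMod 2) := by
      rw [(hsub (bl l)).2.2, (hD1 l (bl l)).1, if_pos rfl, hs0]
      simp
    rcases Nat.eq_zero_or_pos (m l) with hm0 | hm0
    · -- good primes
      refine hGOO _ x w (p l) hT (hpp l) ?_
      intro i j hij
      have hnd' : ∀ t, ¬ (p l : ℤ) ∣ Kn s r st p * Bn a bl m p t := by
        intro t
        obtain ⟨R, hR, hR'⟩ := fact_p hP l t
        rw [hs0, hm0, ite_self, add_zero, pow_zero, one_mul] at hR'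
        rw [hR']
        exact hR
      obtain ⟨t, -, -, ht | ht⟩ := hdif i j hij
      · rw [ht]; exact hnd' t
      · rw [ht]; intro hd; exact hnd' t ((dvd_neg).1 hd)
    · rcases Nat.even_or_odd (m l) with hev | hod
      · -- even
        refine hMLE _ x w (p l) (bl l) hT (hpp l) (p2 hP l) hnd1 hnd2 ?_ ?_ ?_ hul1
        · intro h0
          apply hne (bl l)
          rw [← (hsub (bl l)).2.2, h0, sub_self]
        · rw [(hsub (bl l)).2.2]
          obtain ⟨R, hR, hR'⟩ := fact_p hP l (bl l)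
          rw [hs0, if_pos rfl, zero_add] at hR'
          rw [hR']
          exact Dvd.dvd.mul_right (dvd_pow_self _ (by omega)) _
        · rw [hvb]
          exact (ZMod.natCast_eq_zero_iff_even).2 hev
      · -- odd
        have hm1 : (m l : ZMod 2) = 1 := (ZMod.natCast_eq_one_iff_odd).2 hod
        obtain ⟨g1, g2, g3⟩ := hMLO _ x w (p l) (bl l) hT (hpp l) (p2 hP l) hnd1 hnd2
          (by rw [hvb, hm1])
        rw [hul1, mul_one, h2, g1, mul_zero] at g3
        intro i
        have hi : i = bl l ∨ i = bl l + 1 ∨ i = bl l + 2 := by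
          generalize bl l = b
          revert b i
          decide
        rcases hi with rfl | rfl | rfl
        · exact g1
        · exact g3.symm
        · rw [g2]; exact g3.symm
  · -- `st l = 1`
    have hs1 : st l = 1 := by omega
    have hdp : ∀ t, (p l : ℤ) ∣ Kn s r st p * Bn a bl m p t := by
      intro t
      obtain ⟨R, hR, hR'⟩ := fact_p hP l t
      rw [hR', hs1, pow_add, pow_one, mul_assoc]
      exact Dvd.intro _ rfl
    have hall : ∀ j k, (p l : ℤ) ∣ re a s r bl m st p j - re a s r bl m st p k := by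
      intro j k
      by_cases hjk : j = k
      · rw [hjk, sub_self]
        exact dvd_zero _
      · obtain ⟨t, -, -, ht | ht⟩ := hdif j k hjk
        · rw [ht]; exact hdp t
        · rw [ht]; exact (dvd_neg).2 (hdp t)
    have hsq : ∀ t, t ≠ bl l → ¬ (p l : ℤ) ^ 2 ∣ Kn s r st p * Bn a bl m p t := by
      intro t ht
      obtain ⟨R, hR, hR'⟩ := fact_p hP l t
      rw [hs1, if_neg (Ne.symm ht), add_zero, pow_one] at hR'
      exact ne_sq (hpp l) hR hR'
    rcases hSTR (re a s r bl m st p) x w (p l) (bl l) hT (hpp l) (p2 hP l) hall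
      (by rw [(hsub (bl l)).1]; intro hd; exact hsq _ hn2.symm ((dvd_neg).1 hd))
      (by rw [(hsub (bl l)).2.1]; exact hsq _ hn1.symm)
      (by
        intro h0
        apply hne (bl l)
        rw [← (hsub (bl l)).2.2, h0, sub_self]) with hh | ⟨j, hj⟩
    · intro i
      exact (hh i).1
    · exfalso
      obtain ⟨k, hkj, hk⟩ := pick j (bl l)
      obtain ⟨t, htj, htk, ht⟩ := hdif j k hkj.symm
      have htb : bl l ≠ t := (hk t htj htk).symm
      obtain ⟨q1, q2⟩ := hj k hkj
      have q3 : vl (p l) (re a s r bl m st p j - re a s r bl m st p k) = 1 := by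
        have : vl (p l) (Kn s r st p * Bn a bl m p t) = 1 := by
          rw [(hD1 l t).1, if_neg htb, hs1]
          simp
        rcases ht with ht | ht
        · rw [ht, this]
        · rw [ht, vl_neg, this]
      have q4 : ul (p l) (re a s r bl m st p j - re a s r bl m st p k) = 1 + h := by
        have : ul (p l) (Kn s r st p * Bn a bl m p t) = 1 + h := by
          rw [(hD1 l t).2, if_neg htb, hs1]
          simp
        rcases ht with ht | ht
        · rw [ht, this]
        · rw [ht, huln _ (hne t), this]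
      rw [q3] at q1
      rw [q4, h2, q1, mul_one] at q2
      have h5 : ∀ u : ZMod 2, u ≠ 1 + u := by decide
      exact h5 _ q2

end Pool.Agent.GT.D.H84
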